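import Pool.Agent.SGD.Stmts
import Pool.Agent.Helper73_SGY.Asm

/-!
# Squad SGD, row RLZ: a maximal planar graph is a triangulated triangle (author helper23)
-/

set_option autoImplicit false

noncomputable section

namespace Pool.Agent.SGD.H23

open Pool.Agent.SGE Pool.Agent.SGP Pool.Agent.SGY Pool.Agent.SGD

/-- a third element -/
theorem third {n : ℕ} (hn : 3 ≤ n) (u v : Fin n) : ∃ w : Fin n, w ≠ u ∧ w ≠ v := by
  have h1 : ({u, v} : Finset (Fin n)).card < (Finset.univ : Finset (Fin n)).card := by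
    have h2 : ({u, v} : Finset (Fin n)).card ≤ 2 := Finset.card_le_two
    rw [Finset.card_univ, Fintype.card_fin]
    omega
  obtain ⟨w, _, hw⟩ := Finset.exists_mem_notMem_of_card_lt_card h1
  simp only [Finset.mem_insert, Finset.mem_singleton, not_or] at hw
  exact ⟨w, hw.1, hw.2⟩

/-- **RLZ** -/
theorem rlz (hCcr : CcrStmt) (hGnz : GnzStmt) : RlzStmt := by
  intro n T hn hT
  obtain ⟨E₀, F₀, N₀, hE₀, hR₀⟩ := Pool.Agent.SGP.H20.gex T hT.1
  -- first step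
  have u0 : Fin n := ⟨0, by omega⟩
  obtain ⟨v₁, hv₁, E₁, F₁, N₁, hi₁, hs₁, hr₁⟩ := hCcr N₀
    ⟨Sum.inl u0, by simp, by simp, by simp, hR₀ _⟩
  obtain ⟨a, rfl⟩ : ∃ a, v₁ = Sum.inl a := by
    rcases v₁ with a | i
    · exact ⟨a, rfl⟩
    · exfalso
      obtain ⟨h1, h2, h3, _⟩ := hv₁
      fin_cases i
      · exact h1 rfl
      · exact h2 rfl
      · exact h3 rfl
  have N₁' := Pool.Agent.SGP.H77.rot N₁
  -- second step
  obtain ⟨u1, hu1, _⟩ := third hn a a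
  obtain ⟨v₂, hv₂, E₂, F₂, N₂, hi₂, hs₂, hr₂⟩ := hCcr N₁'
    ⟨Sum.inl u1, by simp, by simpa using hu1, by simp, (hr₁ _).2 ⟨by simp, hR₀ _⟩⟩
  obtain ⟨b, rfl⟩ : ∃ b, v₂ = Sum.inl b := by
    rcases v₂ with b | i
    · exact ⟨b, rfl⟩
    · exfalso
      obtain ⟨h1, h2, h3, h4⟩ := hv₂
      have h5 := ((hr₁ _).1 h4).1
      fin_cases i
      · exact h3 rfl
      · exact h1 rfl
      · exact h5 rfl
  have N₂' := Pool.Agent.SGP.H77.rot N₂
  -- third step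
  obtain ⟨u2, hu2, hu2'⟩ := third hn a b
  obtain ⟨v₃, hv₃, E, F, N, hi, hs, hr⟩ := hCcr N₂'
    ⟨Sum.inl u2, by simpa using hu2, by simpa using hu2', by simp,
      (hr₂ _).2 ⟨by simp, (hr₁ _).2 ⟨by simp, hR₀ _⟩⟩⟩
  obtain ⟨c, rfl⟩ : ∃ c, v₃ = Sum.inl c := by
    rcases v₃ with c | i
    · exact ⟨c, rfl⟩
    · exfalso
      obtain ⟨h1, h2, h3, h4⟩ := hv₃
      have h5 := ((hr₂ _).1 h4).1
      have h6 := ((hr₁ _).1 ((hr₂ _).1 h4).2).1
      fin_cases i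
      · exact h5 rfl
      · exact h3 rfl
      · exact h6 rfl
  have hRel : ∀ v : Fin n, Rel E (Sum.inl v) := fun v =>
    (hr _).2 ⟨by simp, (hr₂ _).2 ⟨by simp, (hr₁ _).2 ⟨by simp, hR₀ _⟩⟩⟩
  have hIso : ∀ i : Fin 3, ¬ Rel E (Sum.inr i) := by
    intro i h
    have h1 := (hr _).1 h
    have h2 := (hr₂ _).1 h1.2
    have h3 := (hr₁ _).1 h2.2
    fin_cases i
    · exact h2.1 rfl
    · exact h1.1 rfl
    · exact h3.1 rfl
  have hTE : ∀ u v, T.Adj u v → E (Sum.inl u) (Sum.inl v) := fun u v h =>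
    hs _ _ (by simp) (by simp) (hs₂ _ _ (by simp) (by simp) (hs₁ _ _ (by simp) (by simp)
      (hE₀ u v h)))
  let T' : SimpleGraph (Fin n) :=
    { Adj := fun u v => E (Sum.inl u) (Sum.inl v)
      symm := ⟨fun u v h => N.sym _ _ h⟩
      loopless := ⟨fun u h => N.irr _ h⟩ }
  have hle : T ≤ T' := fun u v h => hTE u v h
  obtain ⟨f, π, hf, _⟩ := Pool.Agent.SGY.H73.mayA (Inn (Sum.inl a) (Sum.inl b) (Sum.inl c) E).ncard
    (fun _ => 0) N rfl
  have hgp : ∀ x y w : Fin n, x ≠ y → x ≠ w → y ≠ w →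
      o (f (Sum.inl x)) (f (Sum.inl y)) (f (Sum.inl w)) ≠ 0 := by
    intro x y w h1 h2 h3
    exact hf.gp _ _ _ (hRel x) (hRel y) (hRel w) (by simpa using h1) (by simpa using h2)
      (by simpa using h3)
  have hinj : Function.Injective (fun x : Fin n => f (Sum.inl x)) := by
    intro x y hxy
    by_contra hne
    obtain ⟨w, hw1, hw2⟩ := third hn x y
    refine hgp x y w hne (Ne.symm hw1) (Ne.symm hw2) ?_
    have h1 : f (Sum.inl x) = f (Sum.inl y) := hxy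
    rw [h1]
    unfold o
    ring
  obtain ⟨z, hz⟩ := hGnz (fun x : Fin n => f (Sum.inl x)) hinj
  have hD : Draw T' (fun x : Fin n => f (Sum.inl x)) :=
    Pool.Agent.SGP.H19.drw Pool.Agent.SGE.H99.seg z hgp hz
      (fun x y w t h1 h2 => Pool.Agent.SGY.H95.fpl N hf _ _ _ _ h1 h2)
  have hEq : T' = T := hT.2 T' hle ⟨_, hD⟩
  refine ⟨a, b, c, E, F, N, ?_, ?_, hRel⟩
  · intro u v
    rw [← hEq]
  · intro i x
    exact ⟨fun h => hIso i ⟨x, h⟩, fun h => hIso i ⟨x, N.sym _ _ h⟩⟩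

end Pool.Agent.SGD.H23
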